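import Pool.Agent.R937.JB.Defs
import Pool.Agent.R937.JB.Lin

/-!
# The size of the Jordan blocks of Frobenius on powers of a variety
-/

open CategoryTheory AlgebraicGeometry Finset Polynomial

universe u v

namespace Pool.Agent.R937.JB

section Alg

variable {K V : Type*} [Field K] [AddCommGroup V] [Module K V]

lemma BlocksAtMost.mono {T : Module.End K V} {U : Submodule K V} (hU : ∀ x ∈ U, T x ∈ U) {μ : K}
    {s s' : ℕ} (h : BlocksAtMost T U μ s) (hs : s ≤ s') : BlocksAtMost T U μ s' := by
  obtain ⟨t, rfl⟩ := Nat.exists_eq_add_of_le hs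
  intro x hx hx0
  have hN : ∀ t : ℕ, ((T - μ • (1 : Module.End K V)) ^ t) x ∈ U := by
    intro t
    induction t with
    | zero => exact hx
    | succ t ih =>
      rw [pow_succ', Module.End.mul_apply, LinearMap.sub_apply, LinearMap.smul_apply,
        Module.End.one_apply]
      exact Submodule.sub_mem _ (hU _ ih) (Submodule.smul_mem _ _ ih)
  have h1 := h (((T - μ • 1) ^ t) x) (hN t) (by
    rw [← Module.End.mul_apply, ← pow_add, show s + 1 + t = s + t + 1 by ring, hx0])
  rw [← Module.End.mul_apply, ← pow_add] at h1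
  exact h1

end Alg

open Pool.Agent.H914 VarClass Obj WeilCohomology

variable {k : Type u} [Field k] {𝒱 : VarClass k} {ops : CycleOps 𝒱}
  {W : WeilCohomology.{u, v} ops} {q : ℕ} {F : Frobenius W q} {X Y Z : 𝒱.Obj}

lemma q_ne (F : Frobenius W q) : (q : W.K) ≠ 0 := by
  have := F.pos
  exact_mod_cast this.ne'

lemma frob_apply (a : W.H X) : frob F X a = W.map (F.Fr X) a := rfl

lemma frob_mem {i : ℕ} {a : W.H X} (ha : a ∈ W.gr X i) : frob F X a ∈ W.gr X i :=
  W.map_mem _ ha

lemma frob_mul (a b : W.H X) : frob F X (a * b) = frob F X a * frob F X b :=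
  map_mul (W.map (F.Fr X)) a b

lemma frob_map (f : X ⟶ Y) (a : W.H Y) : frob F X (W.map f a) = W.map f (frob F Y a) := by
  rw [frob_apply, frob_apply, ← W.map_comp, ← W.map_comp, F.comm]

lemma frob_tr (a : W.H X) : W.tr X (frob F X a) = (q : W.K) ^ X.dim * W.tr X a := by
  refine gr_induction (W.isInternal X)
    (p := fun a => W.tr X (frob F X a) = (q : W.K) ^ X.dim * W.tr X a) ?_ ?_ a
  · intro i a ha
    by_cases hi : i = 2 * X.dim
    · subst hi
      rw [frob_apply, F.deg ha, map_smul, smul_eq_mul]
    · rw [W.tr_eq_zero (frob_mem ha) hi, W.tr_eq_zero ha hi, mul_zero]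
  · intro a b ha hb
    rw [map_add, map_add, map_add, ha, hb, mul_add]

lemma frob_pair (a b : W.H X) :
    W.tr X (frob F X a * frob F X b) = (q : W.K) ^ X.dim * W.tr X (a * b) := by
  rw [← frob_mul, frob_tr]

/-- The external product. -/
noncomputable def box (x : W.H X) (u : W.H Y) : W.H (X.prod Y) :=
  W.map (fst X Y) x * W.map (snd X Y) u

lemma box_add_left (x x' : W.H X) (u : W.H Y) : box (x + x') u = box x u + box x' u := by
  rw [box, box, box, map_add, add_mul]

lemma box_add_right (x : W.H X) (u u' : W.H Y) : box x (u + u') = box x u + box x u' := by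
  rw [box, box, box, map_add, mul_add]

lemma box_smul_left (c : W.K) (x : W.H X) (u : W.H Y) : box (c • x) u = c • box x u := by
  rw [box, box, map_smul, smul_mul_assoc]

lemma box_smul_right (c : W.K) (x : W.H X) (u : W.H Y) : box x (c • u) = c • box x u := by
  rw [box, box, map_smul, mul_smul_comm]

lemma box_zero_left (u : W.H Y) : box (0 : W.H X) u = 0 := by rw [box, map_zero, zero_mul]

lemma box_zero_right (x : W.H X) : box x (0 : W.H Y) = 0 := by rw [box, map_zero, mul_zero]

lemma box_mem {i j : ℕ} {x : W.H X} {u : W.H Y} (hx : x ∈ W.gr X i) (hu : u ∈ W.gr Y j) :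
    box x u ∈ W.gr (X.prod Y) (i + j) := W.mul_mem (W.map_mem _ hx) (W.map_mem _ hu)

lemma frob_box (x : W.H X) (u : W.H Y) :
    frob F (X.prod Y) (box x u) = box (frob F X x) (frob F Y u) := by
  rw [box, frob_mul, frob_map, frob_map, box]

lemma box_ne {x : W.H X} {u : W.H Y} (hx : x ≠ 0) (hu : u ≠ 0) : box x u ≠ 0 := by
  intro h
  obtain ⟨b, hb⟩ : ∃ b, W.tr Y (u * b) ≠ 0 := by
    by_contra hcon
    push Not at hcon
    exact hu (W.nondeg _ hcon)
  have h4 : kappa W X Y (TensorProduct.tmul W.K x u) = 0 := by rw [kappa_tmul]; exact h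
  have h5 := (kappa W X Y).injective (h4.trans (map_zero _).symm)
  have h6 := congrArg ((TensorProduct.rid W.K (W.H X)).toLinearMap ∘ₗ
    LinearMap.lTensor (W.H X) (W.tr Y ∘ₗ LinearMap.mulRight W.K b)) h5
  simp [hb] at h6
  exact hx h6

/-- The nilpotent part. -/
noncomputable def nn (F : Frobenius W q) (X : 𝒱.Obj) (l : W.K) : Module.End W.K (W.H X) :=
  frob F X - l • 1

lemma nn_apply (l : W.K) (x : W.H X) : nn F X l x = frob F X x - l • x := rfl

lemma frob_eq (l : W.K) (x : W.H X) : frob F X x = nn F X l x + l • x := by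
  rw [nn_apply]; abel

lemma nn_box (l m : W.K) (x : W.H X) (u : W.H Y) :
    nn F (X.prod Y) (l * m) (box x u) =
      box (nn F X l x) (nn F Y m u) + m • box (nn F X l x) u + l • box x (nn F Y m u) := by
  rw [nn_apply, frob_box, frob_eq l x, frob_eq m u, box_add_left, box_add_right, box_add_right,
    box_smul_left, box_smul_left, box_smul_right, box_smul_right, smul_smul]
  abel

lemma nn_zero_of_le {l : W.K} {x : W.H X} {a b : ℕ} (hab : a ≤ b) (h : (nn F X l ^ a) x = 0) :
    (nn F X l ^ b) x = 0 := by
  obtain ⟨c, rfl⟩ := Nat.exists_eq_add_of_le hab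
  rw [add_comm, pow_add, Module.End.mul_apply, h, map_zero]

/-- Vanishing of high powers on external products. -/
lemma box_zero (l m : W.K) : ∀ (n a b : ℕ), a + b = n → ∀ (x : W.H X) (u : W.H Y),
    (nn F X l ^ a) x = 0 → (nn F Y m ^ b) u = 0 →
      (nn F (X.prod Y) (l * m) ^ (a + b - 1)) (box x u) = 0 := by
  intro n
  induction n with
  | zero =>
    intro a b hab x u hx _
    obtain rfl : a = 0 := by omega
    rw [pow_zero, Module.End.one_apply] at hx
    rw [hx, box_zero_left, map_zero]
  | succ n ih =>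
    intro a b hab x u hx hu
    rcases a with _ | a
    · rw [pow_zero, Module.End.one_apply] at hx
      rw [hx, box_zero_left, map_zero]
    rcases b with _ | b
    · rw [pow_zero, Module.End.one_apply] at hu
      rw [hu, box_zero_right, map_zero]
    have hx' : (nn F X l ^ a) (nn F X l x) = 0 := by
      rw [← Module.End.mul_apply, ← pow_succ]; exact hx
    have hu' : (nn F Y m ^ b) (nn F Y m u) = 0 := by
      rw [← Module.End.mul_apply, ← pow_succ]; exact hu
    rw [show a + 1 + (b + 1) - 1 = a + b + 1 by omega, pow_succ, Module.End.mul_apply, nn_box,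
      map_add, map_add, map_smul, map_smul]
    have e1 := ih a (b + 1) (by omega) (nn F X l x) u hx' hu
    have e2 := ih (a + 1) b (by omega) x (nn F Y m u) hx hu'
    rw [show a + (b + 1) - 1 = a + b by omega] at e1
    rw [show a + 1 + b - 1 = a + b by omega] at e2
    have e3 : (nn F (X.prod Y) (l * m) ^ (a + b)) (box (nn F X l x) (nn F Y m u)) = 0 := by
      refine nn_zero_of_le (a := a + (b + 1) - 1) (by omega)
        (ih a (b + 1) (by omega) (nn F X l x) (nn F Y m u) hx' ?_)
      exact nn_zero_of_le (Nat.le_succ b) hu'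
    rw [e1, e2, e3, smul_zero, smul_zero, add_zero, add_zero]

/-- The leading term on external products. -/
lemma box_lead (l m : W.K) : ∀ (n a b : ℕ), a + b = n → ∀ (x : W.H X) (u : W.H Y),
    (nn F X l ^ (a + 1)) x = 0 → (nn F Y m ^ (b + 1)) u = 0 →
      (nn F (X.prod Y) (l * m) ^ (a + b)) (box x u) =
        (((a + b).choose a : W.K) * (m ^ a * l ^ b)) •
          box ((nn F X l ^ a) x) ((nn F Y m ^ b) u) := by
  intro n
  induction n with
  | zero =>
    intro a b hab x u _ _
    obtain rfl : a = 0 := by omega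
    obtain rfl : b = 0 := by omega
    simp
  | succ n ih =>
    intro a b hab x u hx hu
    rcases a with _ | a
    · rcases b with _ | b
      · simp
      have hx0 : nn F X l x = 0 := by simpa using hx
      have hu' : (nn F Y m ^ (b + 1)) (nn F Y m u) = 0 := by
        rw [← Module.End.mul_apply, ← pow_succ]; exact hu
      have e2 := ih 0 b (by omega) x (nn F Y m u) hx hu'
      rw [zero_add] at e2
      rw [zero_add, pow_succ, Module.End.mul_apply, nn_box, hx0, box_zero_left, box_zero_left,
        smul_zero, zero_add, zero_add, map_smul, e2, smul_smul, pow_succ (nn F Y m) b,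
        Module.End.mul_apply]
      congr 1
      rw [Nat.choose_zero_right, Nat.choose_zero_right]
      ring
    rcases b with _ | b
    · have hu0 : nn F Y m u = 0 := by simpa using hu
      have hx' : (nn F X l ^ (a + 1)) (nn F X l x) = 0 := by
        rw [← Module.End.mul_apply, ← pow_succ]; exact hx
      have e1 := ih a 0 (by omega) (nn F X l x) u hx' hu
      rw [add_zero] at e1
      rw [add_zero, pow_succ, Module.End.mul_apply, nn_box, hu0, box_zero_right, box_zero_right,
        smul_zero, zero_add, add_zero, map_smul, e1, smul_smul, pow_succ (nn F X l) a,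
        Module.End.mul_apply]
      congr 1
      rw [Nat.choose_self, Nat.choose_self]
      ring
    have hx' : (nn F X l ^ (a + 1)) (nn F X l x) = 0 := by
      rw [← Module.End.mul_apply, ← pow_succ]; exact hx
    have hu' : (nn F Y m ^ (b + 1)) (nn F Y m u) = 0 := by
      rw [← Module.End.mul_apply, ← pow_succ]; exact hu
    have e1 := ih a (b + 1) (by omega) (nn F X l x) u hx' hu
    have e2 := ih (a + 1) b (by omega) x (nn F Y m u) hx hu'
    have e3 := box_zero l m _ (a + 1) (b + 1) rfl (nn F X l x) (nn F Y m u) hx' hu'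
    rw [show a + 1 + (b + 1) - 1 = a + b + 1 by omega] at e3
    rw [show a + (b + 1) = a + b + 1 by omega] at e1
    rw [show a + 1 + b = a + b + 1 by omega] at e2
    rw [show a + 1 + (b + 1) = a + b + 1 + 1 by omega, pow_succ (nn F (X.prod Y) (l * m)),
      Module.End.mul_apply, nn_box, map_add, map_add, map_smul, map_smul, e1, e2, e3, zero_add,
      smul_smul, smul_smul, ← Module.End.mul_apply, ← pow_succ, ← Module.End.mul_apply, ← pow_succ,
      ← add_smul]
    have e4 : ((a + b + 1 + 1).choose (a + 1) : W.K) =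
        ((a + b + 1).choose a : W.K) + ((a + b + 1).choose (a + 1) : W.K) := by
      exact_mod_cast Nat.choose_succ_succ (a + b + 1) a
    congr 1
    rw [e4]
    ring

/-- The indices add up. -/
lemma index_box {l m : W.K} (hl : l ≠ 0) (hm : m ≠ 0) {a b : ℕ} {x : W.H X} {u : W.H Y}
    (hx0 : (nn F X l ^ (a + 1)) x = 0) (hx : (nn F X l ^ a) x ≠ 0)
    (hu0 : (nn F Y m ^ (b + 1)) u = 0) (hu : (nn F Y m ^ b) u ≠ 0) :
    (nn F (X.prod Y) (l * m) ^ (a + b + 1)) (box x u) = 0 ∧
      (nn F (X.prod Y) (l * m) ^ (a + b)) (box x u) ≠ 0 := by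
  constructor
  · have h := box_zero l m _ (a + 1) (b + 1) rfl x u hx0 hu0
    rwa [show a + 1 + (b + 1) - 1 = a + b + 1 by omega] at h
  · rw [box_lead l m _ a b rfl x u hx0 hu0]
    refine smul_ne_zero (mul_ne_zero ?_ (mul_ne_zero (pow_ne_zero _ hm) (pow_ne_zero _ hl)))
      (box_ne hx hu)
    have : 0 < (a + b).choose a := Nat.choose_pos (Nat.le_add_right a b)
    exact_mod_cast this.ne'

end Pool.Agent.R937.JB
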