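import Pool.Agent.R937.JB.A

/-!
# Bounds for the Jordan blocks of Frobenius imply semisimplicity
-/

open CategoryTheory AlgebraicGeometry Finset Polynomial

universe u v

namespace Pool.Agent.R937.JB

open Pool.Agent.H914 VarClass Obj WeilCohomology

variable {k : Type u} [Field k] {𝒱 : VarClass k} {ops : CycleOps 𝒱}
  {W : WeilCohomology.{u, v} ops} {q : ℕ} {F : Frobenius W q} {X Y Z : 𝒱.Obj}

/-- Semisimplicity on the graded pieces. -/
lemma diag_of_graded (h : ∀ (i : ℕ) (l : W.K), ∀ x ∈ W.gr X i,
    frob F X (frob F X x - l • x) - l • (frob F X x - l • x) = 0 → frob F X x - l • x = 0) :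
    Diag (frob F X) := by
  intro l x hx
  have hhom : IsHom (W.gr X) 0 (frob F X) := by
    intro i a ha
    rw [add_zero]
    by_cases hi : 0 ≤ i
    · lift i to ℕ using hi
      rw [grZ_natCast] at ha ⊢
      exact frob_mem ha
    · rw [grZ_of_neg (by omega)] at ha ⊢
      rw [(Submodule.mem_bot _).1 ha, map_zero]
      exact Submodule.zero_mem _
  have hc : ∀ i a, proj (W.isInternal X) i (frob F X a) =
      frob F X (proj (W.isInternal X) i a) := by
    intro i a
    have := congrArg (fun T => T a) (hhom.proj_comm (W.isInternal X) i)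
    exact this
  have h1 : ∀ i, proj (W.isInternal X) i (frob F X x - l • x) = 0 := by
    intro i
    have h2 := h i l (proj (W.isInternal X) i x) (proj_mem _ i x) (by
      have h3 := congrArg (proj (W.isInternal X) i) hx
      rw [map_sub, hc, map_smul, map_sub, hc, map_smul, map_zero] at h3
      exact h3)
    rw [map_sub, hc, map_smul]
    exact h2
  have hsum := sum_proj (W.isInternal X) (N := 2 * X.dim + 1)
    (fun i hi => W.gr_eq_bot X i (by omega))
  have h2 := congrArg (fun T => T (frob F X x - l • x)) hsum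
  simp only [LinearMap.sum_apply, h1, Finset.sum_const_zero, Module.End.one_apply] at h2
  exact h2.symm

/-- A Jordan block on `X` and its dual give a Jordan block of size three on `X × X`. -/
lemma exists_square [IsAlgClosed W.K] (h : ¬ FrobSemisimple F X) :
    ∃ z ∈ W.gr (X.prod X) (2 * X.dim), (nn F (X.prod X) ((q : W.K) ^ X.dim) ^ 3) z = 0 ∧
      (nn F (X.prod X) ((q : W.K) ^ X.dim) ^ 2) z ≠ 0 := by
  have hq := q_ne F
  have h' : ¬ ∀ (i : ℕ) (l : W.K), ∀ x ∈ W.gr X i,
      frob F X (frob F X x - l • x) - l • (frob F X x - l • x) = 0 → frob F X x - l • x = 0 :=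
    fun h1 => h (isSemisimple_of_diag (diag_of_graded h1))
  push Not at h'
  obtain ⟨i, l, x, hx, h0, h1⟩ := h'
  have hi : i ≤ 2 * X.dim := by
    by_contra hi
    rw [W.gr_eq_bot _ _ (by omega)] at hx
    rw [(Submodule.mem_bot _).1 hx, map_zero, smul_zero, sub_zero] at h1
    exact h1 rfl
  set y := frob F X x - l • x with hyd
  have hFx : frob F X x = l • x + y := by rw [hyd]; abel
  have hFy : frob F X y = l • y := sub_eq_zero.1 h0
  clear_value y
  have hl : l ≠ 0 := by
    rintro rfl
    rw [zero_smul] at hFy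
    have h2 := frob_pair (F := F) y
    refine h1 (W.nondeg _ fun b => ?_)
    have h3 := h2 b
    rw [hFy, zero_mul, map_zero] at h3
    exact (mul_eq_zero.1 h3.symm).resolve_left (pow_ne_zero _ hq)
  obtain ⟨m, hlm⟩ : ∃ m, l * m = (q : W.K) ^ X.dim := ⟨l⁻¹ * (q : W.K) ^ X.dim, by
    rw [← mul_assoc, mul_inv_cancel₀ hl, one_mul]⟩
  have hm : m ≠ 0 := by rintro rfl; rw [mul_zero] at hlm; exact pow_ne_zero _ hq hlm.symm
  -- a generalised eigenvector in the dual degree
  obtain ⟨x', hx', h2, h3⟩ : ∃ x' ∈ W.gr X (2 * X.dim - i),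
      frob F X (frob F X x' - m • x') - m • (frob F X x' - m • x') = 0 ∧
        frob F X x' - m • x' ≠ 0 := by
    have hst : ∀ j, ∀ a ∈ W.gr X j, frob F X a ∈ W.gr X j := fun j a ha => frob_mem ha
    obtain ⟨x', h2, h3⟩ := exists_dual (V := W.gr X i) (V' := W.gr X (2 * X.dim - i))
      (B := ((LinearMap.mul W.K (W.H X)).compr₂ (W.tr X)).domRestrict₁₂ _ _)
      (T := (frob F X).restrict (hst i))
      (T' := (frob F X).restrict (hst (2 * X.dim - i))) (c := (q : W.K) ^ X.dim) (l := l) (m := m)
      (by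
        rintro ⟨a, ha⟩ hab
        apply Subtype.ext
        change a = 0
        apply W.nondeg
        intro b
        refine gr_induction (W.isInternal X) (p := fun b => W.tr X (a * b) = 0) ?_ ?_ b
        · intro j b hb
          by_cases hj : j = 2 * X.dim - i
          · subst hj
            exact hab ⟨b, hb⟩
          · exact W.tr_eq_zero (W.mul_mem ha hb) (by omega)
        · intro b b' hb hb'
          rw [mul_add, map_add, hb, hb', add_zero])
      (fun a b => frob_pair (a : W.H X) (b : W.H X)) hlm (pow_ne_zero _ hq) (x := ⟨x, hx⟩)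
      (by
        apply Subtype.ext
        change frob F X (frob F X x - l • x) - l • (frob F X x - l • x) = 0
        rw [hFx, add_sub_cancel_left, hFy, sub_self])
      (by
        intro h4
        have h5 := congrArg Subtype.val h4
        change frob F X x - l • x = 0 at h5
        rw [hFx, add_sub_cancel_left] at h5
        exact h1 h5)
    refine ⟨x', x'.2, congrArg Subtype.val h2, fun h4 => h3 (Subtype.ext h4)⟩
  have hnx : nn F X l x = y := by rw [nn_apply, hFx, add_sub_cancel_left]
  have hny : nn F X l y = 0 := by rw [nn_apply, hFy, sub_self]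
  have key := index_box (F := F) (X := X) (Y := X) hl hm (a := 1) (b := 1) (x := x) (u := x')
    (by rw [pow_succ', pow_one, Module.End.mul_apply, hnx, hny])
    (by rw [pow_one, hnx]; exact h1)
    (by rw [pow_succ', pow_one, Module.End.mul_apply]; exact h2)
    (by rw [pow_one]; exact h3)
  rw [hlm] at key
  refine ⟨box x x', ?_, key.1, key.2⟩
  have h4 := box_mem hx hx'
  rwa [show i + (2 * X.dim - i) = 2 * X.dim by omega] at h4

/-- **Growth of the Jordan blocks.** If Frobenius is not semisimple on `H(X)` then on the middle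
cohomology of the product of `2 (m + 1)` copies of `X` it has a Jordan block of size
`2 (m + 1) + 1` for the eigenvalue `q ^ ((m + 1) dim X)`. -/
lemma exists_block [IsAlgClosed W.K] (h : ¬ FrobSemisimple F X) (m : ℕ) :
    ∃ z ∈ W.gr (evenPow X m) (2 * ((m + 1) * X.dim)),
      (nn F (evenPow X m) ((q : W.K) ^ ((m + 1) * X.dim)) ^ (2 * (m + 1) + 1)) z = 0 ∧
        (nn F (evenPow X m) ((q : W.K) ^ ((m + 1) * X.dim)) ^ (2 * (m + 1))) z ≠ 0 := by
  have hq := q_ne F
  obtain ⟨z0, h1, h2, h3⟩ := exists_square h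
  induction m with
  | zero =>
    refine ⟨z0, ?_, ?_, ?_⟩
    · rw [zero_add, one_mul]
      exact h1
    · rw [zero_add, one_mul]
      exact h2
    · rw [zero_add, one_mul]
      exact h3
  | succ m ih =>
    obtain ⟨z, i1, i2, i3⟩ := ih
    have key := index_box (F := F) (X := evenPow X m) (Y := X.prod X)
      (l := (q : W.K) ^ ((m + 1) * X.dim)) (m := (q : W.K) ^ X.dim) (pow_ne_zero _ hq)
      (pow_ne_zero _ hq) (a := 2 * (m + 1)) (b := 2) (x := z) (u := z0) i2 i3 h2 h3
    rw [← pow_add, show (m + 1) * X.dim + X.dim = (m + 1 + 1) * X.dim by ring,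
      show 2 * (m + 1) + 2 = 2 * (m + 1 + 1) by ring] at key
    refine ⟨box z z0, ?_, key.1, key.2⟩
    have h4 := box_mem i1 h1
    rwa [show 2 * ((m + 1) * X.dim) + 2 * X.dim = 2 * ((m + 1 + 1) * X.dim) by ring] at h4

/-- A weak bound for the Jordan blocks on one power implies semisimplicity. -/
lemma semisimple_of_blocks [IsAlgClosed W.K] (m : ℕ)
    (h : TateBlocks F (evenPow X m) ((m + 1) * X.dim) (2 * (m + 1))) : FrobSemisimple F X := by
  by_contra hcon
  obtain ⟨z, h1, h2, h3⟩ := exists_block hcon m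
  exact h3 (h z h1 h2)

lemma TateBlocks.mono {j s s' : ℕ} (h : TateBlocks F X j s) (hs : s ≤ s') : TateBlocks F X j s' :=
  BlocksAtMost.mono (fun _ hx => frob_mem hx) h hs

lemma blocks_of_semisimple (h : FrobSemisimple F X) (j : ℕ) : TateBlocks F X j 1 := by
  intro x _ hx0
  have h1 := diag_of_isSemisimple h ((q : W.K) ^ j) x
  rw [pow_succ', pow_one, Module.End.mul_apply] at hx0
  rw [pow_one]
  exact h1 hx0

/-- **Sublinear bounds for the Jordan blocks.** -/
lemma all_tfae [IsAlgClosed W.K] (F : Frobenius W q) :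
    List.TFAE [∀ X : 𝒱.Obj, FrobSemisimple F X,
      ∀ (V : 𝒱.Obj) (j : ℕ), V.dim = 2 * j → TateBlocks F V j 2,
      ∃ b : ℕ → ℕ, (∀ C : ℕ, ∃ N, ∀ n ≥ N, C * b n ≤ n) ∧
        ∀ (V : 𝒱.Obj) (j : ℕ), V.dim = 2 * j → TateBlocks F V j (b j)] := by
  have hdim : ∀ (X : 𝒱.Obj) (m : ℕ), (evenPow X m).dim = 2 * ((m + 1) * X.dim) := by
    intro X m
    induction m with
    | zero => rw [evenPow, dim_prod]; ring
    | succ m ih => rw [evenPow, dim_prod, dim_prod, ih]; ring
  tfae_have 1 → 2 := fun h V j _ => (blocks_of_semisimple (h V) j).mono (by norm_num)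
  tfae_have 2 → 1 := fun h X => semisimple_of_blocks 0 (h _ _ (hdim X 0))
  tfae_have 1 → 3 := fun h => ⟨fun _ => 1, fun C => ⟨C, fun n hn => by
      change C * 1 ≤ n
      rw [mul_one]
      exact hn⟩,
    fun V j _ => blocks_of_semisimple (h V) j⟩
  tfae_have 3 → 1 := by
    rintro ⟨b, hb, h⟩ X
    obtain ⟨m, hm⟩ : ∃ m, b ((m + 1) * X.dim) ≤ 2 * (m + 1) := by
      rcases Nat.eq_zero_or_pos X.dim with hd | hd
      · exact ⟨b 0, by rw [hd, mul_zero]; omega⟩
      · obtain ⟨N, hN⟩ := hb X.dim
        refine ⟨N, ?_⟩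
        have h1 := hN ((N + 1) * X.dim) (by nlinarith)
        have h2 : X.dim * b ((N + 1) * X.dim) ≤ X.dim * (N + 1) := by
          rw [mul_comm X.dim (N + 1)]
          exact h1
        have h3 := Nat.le_of_mul_le_mul_left h2 hd
        omega
    exact semisimple_of_blocks m ((h _ _ (hdim X m)).mono hm)
  tfae_finish

end Pool.Agent.R937.JB
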