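import Pool.Agent.R937.JB.B

/-!
# Semisimplicity on products and powers
-/

open CategoryTheory AlgebraicGeometry Finset Polynomial

universe u v

namespace Pool.Agent.R937.JB

open Pool.Agent.H914 VarClass Obj WeilCohomology

variable {k : Type u} [Field k] {𝒱 : VarClass k} {ops : CycleOps 𝒱}
  {W : WeilCohomology.{u, v} ops} {q : ℕ} {F : Frobenius W q} {X Y Z : 𝒱.Obj}

/-- Operators on the first factor. -/
noncomputable def eL (W : WeilCohomology.{u, v} ops) (Y Z : 𝒱.Obj) :
    Module.End W.K (W.H Y) →+* Module.End W.K (W.H (Y.prod Z)) where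
  toFun φ := extOp W φ 1
  map_one' := extOp_one
  map_mul' φ φ' := by rw [extOp_mul, one_mul]
  map_zero' := extOp_zero_left 1
  map_add' φ φ' := extOp_add_left φ φ' 1

/-- Operators on the second factor. -/
noncomputable def eR (W : WeilCohomology.{u, v} ops) (Y Z : 𝒱.Obj) :
    Module.End W.K (W.H Z) →+* Module.End W.K (W.H (Y.prod Z)) where
  toFun φ := extOp W 1 φ
  map_one' := extOp_one
  map_mul' φ φ' := by rw [extOp_mul, one_mul]
  map_zero' := extOp_zero_right 1
  map_add' φ φ' := extOp_add_right 1 φ φ'

lemma eL_apply (φ : Module.End W.K (W.H Y)) : eL W Y Z φ = extOp W φ 1 := rfl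
lemma eR_apply (φ : Module.End W.K (W.H Z)) : eR W Y Z φ = extOp W 1 φ := rfl

lemma eLR (φ : Module.End W.K (W.H Y)) (ψ : Module.End W.K (W.H Z)) :
    eL W Y Z φ * eR W Y Z ψ = extOp W φ ψ := by
  rw [eL_apply, eR_apply, extOp_mul, one_mul, mul_one]

lemma e_commute (φ : Module.End W.K (W.H Y)) (ψ : Module.End W.K (W.H Z)) :
    Commute (eL W Y Z φ) (eR W Y Z ψ) := by
  change eL W Y Z φ * eR W Y Z ψ = eR W Y Z ψ * eL W Y Z φ
  rw [eLR, eL_apply, eR_apply, extOp_mul, one_mul, mul_one]

lemma aeval_eL (φ : Module.End W.K (W.H X)) (p : W.K[X]) :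
    aeval (eL W X Y φ) p = eL W X Y (aeval φ p) := by
  induction p using Polynomial.induction_on' with
  | add p r hp hr => rw [map_add, map_add, map_add, hp, hr]
  | monomial r d =>
    rw [aeval_monomial, aeval_monomial, map_mul, map_pow]
    congr 1
    rw [Algebra.algebraMap_eq_smul_one, Algebra.algebraMap_eq_smul_one, eL_apply,
      extOp_smul_left, extOp_one]

lemma aeval_eR (φ : Module.End W.K (W.H Y)) (p : W.K[X]) :
    aeval (eR W X Y φ) p = eR W X Y (aeval φ p) := by
  induction p using Polynomial.induction_on' with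
  | add p r hp hr => rw [map_add, map_add, map_add, hp, hr]
  | monomial r d =>
    rw [aeval_monomial, aeval_monomial, map_mul, map_pow]
    congr 1
    rw [Algebra.algebraMap_eq_smul_one, Algebra.algebraMap_eq_smul_one, eR_apply,
      extOp_smul_right, extOp_one]

/-- Frobenius on a product. -/
lemma frob_prod_eq (F : Frobenius W q) (X Y : 𝒱.Obj) :
    frob F (X.prod Y) = eL W X Y (frob F X) * eR W X Y (frob F Y) := by
  rw [eLR]
  apply ext_kunneth_lin
  intro a b
  rw [extOp_tmul, frob_mul, frob_map, frob_map]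

/-- The product of two varieties with semisimple Frobenius. -/
lemma semisimple_prod (hX : FrobSemisimple F X) (hY : FrobSemisimple F Y) :
    FrobSemisimple F (X.prod Y) := by
  unfold FrobSemisimple at *
  rw [frob_prod_eq]
  apply Module.End.IsSemisimple.mul_of_commute
  · exact e_commute _ _
  · apply Module.End.isSemisimple_of_squarefree_aeval_eq_zero hX.minpoly_squarefree
    rw [aeval_eL, minpoly.aeval, map_zero]
  · apply Module.End.isSemisimple_of_squarefree_aeval_eq_zero hY.minpoly_squarefree
    rw [aeval_eR, minpoly.aeval, map_zero]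

lemma semisimple_evenPow (hX : FrobSemisimple F X) (m : ℕ) : FrobSemisimple F (evenPow X m) := by
  induction m with
  | zero => exact semisimple_prod hX hX
  | succ m ih => exact semisimple_prod ih (semisimple_prod hX hX)

/-- One power and a weak bound. -/
lemma semisimple_iff_blocks [IsAlgClosed W.K] (X : 𝒱.Obj) (m : ℕ) :
    FrobSemisimple F X ↔ TateBlocks F (evenPow X m) ((m + 1) * X.dim) (2 * (m + 1)) :=
  ⟨fun h => (blocks_of_semisimple (semisimple_evenPow h m) _).mono (by omega),
    semisimple_of_blocks m⟩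

end Pool.Agent.R937.JB
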