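import Pool.Agent.H914R2.ExtOp

/-!
# The size of the Jordan blocks of Frobenius: definitions
-/

open CategoryTheory AlgebraicGeometry

universe u v

namespace Pool.Agent.R937.JB

open Pool.Agent.H914 VarClass Obj WeilCohomology

section Alg

variable {K V : Type*} [Field K] [AddCommGroup V] [Module K V]

/-- The Jordan blocks of `T` on the invariant subspace `U` for the eigenvalue `μ` have size at most
`s`. (For `s = 1`: the eigenvalue is semisimple.) -/
def BlocksAtMost (T : Module.End K V) (U : Submodule K V) (μ : K) (s : ℕ) : Prop :=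
  ∀ x ∈ U, ((T - μ • 1) ^ (s + 1)) x = 0 → ((T - μ • 1) ^ s) x = 0

end Alg

variable {k : Type u} [Field k] {𝒱 : VarClass k} {ops : CycleOps 𝒱}

/-- Frobenius endomorphisms of the varieties over a field with `q` elements: natural endomorphisms
which multiply the classes of degree `2 dim X` by `q ^ dim X`. -/
structure Frobenius (W : WeilCohomology.{u, v} ops) (q : ℕ) where
  Fr : ∀ X : 𝒱.Obj, X ⟶ X
  pos : 0 < q
  comm : ∀ {X Y : 𝒱.Obj} (f : X ⟶ Y), Fr X ≫ f = f ≫ Fr Y
  deg : ∀ {X : 𝒱.Obj} {c : W.H X}, c ∈ W.gr X (2 * X.dim) →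
    W.map (Fr X) c = ((q : W.K) ^ X.dim) • c

variable {W : WeilCohomology.{u, v} ops} {q : ℕ}

/-- The Frobenius operator on `H(X)`. -/
noncomputable def frob (F : Frobenius W q) (X : 𝒱.Obj) : Module.End W.K (W.H X) :=
  (W.map (F.Fr X)).toLinearMap

/-- Frobenius acts semisimply on `H(X)`. -/
def FrobSemisimple (F : Frobenius W q) (X : 𝒱.Obj) : Prop := (frob F X).IsSemisimple

/-- All Jordan blocks of Frobenius on `H^(2j)(X)` for the eigenvalue `q ^ j` have size at most `s`. -/
def TateBlocks (F : Frobenius W q) (X : 𝒱.Obj) (j s : ℕ) : Prop :=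
  BlocksAtMost (frob F X) (W.gr X (2 * j)) ((q : W.K) ^ j) s

/-- The product of `2 (m + 1)` copies of `X`. -/
noncomputable def evenPow (X : 𝒱.Obj) : ℕ → 𝒱.Obj
  | 0 => X.prod X
  | m + 1 => (evenPow X m).prod (X.prod X)

end Pool.Agent.R937.JB
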